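import Mathlib
import Pool.Agent.R931.ZG.Main
import Pool.Agent.R931.ZG.AtRat

/-!
# Semisimplicity and the Tate tensors from the lattice condition, without polarizations
-/

set_option autoImplicit false
set_option linter.unusedSectionVars false
set_option linter.unusedVariables false

namespace Pool.Agent.N204.ZL

open Function Polynomial Module NumberField IsDedekindDomain TensorProduct Pool.Agent.TH118.SG
  Pool.Agent.Y114.RM Pool.Agent.Y114.MU Pool.Agent.Y114.TF Pool.Agent.Y114.GF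
  Pool.Agent.H204R3.GP Pool.Agent.R931.GD Pool.Agent.Y142.ZO Pool.Agent.Y142.ZI
  Pool.Agent.Y142.SS Pool.Agent.R931.BD Pool.Agent.R931.ZL Pool.Agent.R931.ZM
  Pool.Agent.R931.PD Pool.Agent.R931.ZF Pool.Agent.R931.ZG
open Pool.Agent.Y936.SS (Om)

section

variable {K : Type} [Field K] [NumberField K] {Γ : Type} [Group Γ] [TopologicalSpace Γ]
  [IsTopologicalGroup Γ] [CompactSpace Γ] {s : Gal(AlgebraicClosure K/K) →* Γ} {N : ℕ} {wt : ℤ}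
  {c r : ℕ} {S : Set (HeightOneSpectrum (𝓞 K))} {P : HeightOneSpectrum (𝓞 K) → ℚ[X]}
  {ρ : ∀ (ℓ : ℕ) [Fact ℓ.Prime], Rep1 Γ N ℓ}

/-- the zero-one law with the lattice condition only -/
theorem lattice_law {𝔤 : ∀ (ℓ : ℕ) [Fact ℓ.Prime], End1 N ℓ} (h' : Setup K Γ s N wt c r S P ρ 𝔤)
    (R : Set (Fin N → ℤ)) (hRr : RankGE r R)
    {J : Type} (T : J → Set (Equiv.Perm (Fin N))) (hne : ∃ j, (T j).Nonempty)
    (p : J → ℕ) [∀ j, Fact (p j).Prime] (τ : ∀ j, Gal(PadicAlgCl (p j)/ℚ_[p j]))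
    (hτ : ∀ j, ∀ a ∈ T j, TypeOccurs s (ρ (p j)) R (τ j) a)
    (m : ℕ) (hm : Forces (relAut R) T (LatticeFull R m))
    (hend : ∀ (ℓ : ℕ) [Fact ℓ.Prime], m ≤ commutantDim (𝔤 ℓ)) :
    HasDensityZero {ℓ | ∃ _ : Fact ℓ.Prime, ¬ (Semisimple (ρ ℓ) ∧ TateTensorsOf (ρ ℓ) (𝔤 ℓ))} := by
  classical
  have h := setup_of_motivic h'
  refine main_F h R hRr T hne p τ hτ
    (fun ℓ _ => Semisimple (ρ ℓ) ∧ TateTensorsOf (ρ ℓ) (𝔤 ℓ)) ∅ Set.finite_empty ?_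
  intro G M hGA hMG hnorm hmeet hgood ℓ hℓp hℓ γ z e f H g y hd hg hHA hyA hyn hmc hlab
  have hlat : LatticeFull R m H := hm G M H g y hGA hMG hnorm hmeet hg hHA hyA hyn hmc
  have hss : Semisimple (ρ ℓ) := semi_of_latticeRat h.pos (h'.motivic ℓ) (h'.rank ℓ) (h'.cont ℓ)
    hd hlab (latticeRat_of_full hlat) (hend ℓ)
  exact ⟨hss, full_of_lattice h.pos (h'.motivic ℓ) (h'.rank ℓ) (h'.cont ℓ) hss hd hlab hlat
    (hend ℓ)⟩

/-- semisimplicity and the Tate tensors at a given prime -/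
theorem lattice_at (h : SetupG K Γ s N wt c r S P ρ) (R : Set (Fin N → ℤ)) (hRr : RankGE r R)
    (ℓ : ℕ) [Fact ℓ.Prime] (T : Set (Equiv.Perm (Fin N))) (hne : T.Nonempty)
    (τ : Gal(PadicAlgCl ℓ/ℚ_[ℓ])) (hτ : ∀ a ∈ T, TypeOccurs s (ρ ℓ) R τ a)
    (𝔤 : End1 N ℓ) (hmot : Motivic (ρ ℓ) 𝔤) (hrk : RankLE 𝔤 r)
    (hm : ForcesAt (relAut R) T (LatticeFull R (commutantDim 𝔤))) :
    Semisimple (ρ ℓ) ∧ TateTensorsOf (ρ ℓ) 𝔤 := by
  obtain ⟨γ, z, e, f, H, hd, hlab, hc⟩ := labels_at h R hRr ℓ T hne τ hτ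
  have hlat := hc _ hm
  have hss : Semisimple (ρ ℓ) := semi_of_latticeRat h.pos hmot hrk (h.cont ℓ)
    hd hlab (latticeRat_of_full hlat) le_rfl
  exact ⟨hss, full_of_lattice h.pos hmot hrk (h.cont ℓ) hss hd hlab hlat le_rfl⟩

end

end Pool.Agent.N204.ZL
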